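import Mathlib

set_option autoImplicit false

open Set Filter Topology

namespace Pool.Agent.H.MP_412c32_gt

def Ω : Type := ℕ ⊕ (ℕ × ℕ × ℤ)

instance : Countable Ω := inferInstanceAs (Countable (ℕ ⊕ (ℕ × ℕ × ℤ)))
instance : Infinite Ω := inferInstanceAs (Infinite (ℕ ⊕ (ℕ × ℕ × ℤ)))
instance : TopologicalSpace Ω := ⊥
instance : DiscreteTopology Ω := ⟨rfl⟩

def G : Type := Equiv.Perm Ω

instance : Group G := inferInstanceAs (Group (Equiv.Perm Ω))

def ap (g : G) (x : Ω) : Ω := (show Equiv.Perm Ω from g) x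

lemma ap_mul (g h : G) (x : Ω) : ap (g * h) x = ap g (ap h x) := rfl
lemma ap_one (x : Ω) : ap 1 x = x := rfl
lemma ap_ext {g h : G} (H : ∀ x, ap g x = ap h x) : g = h := Equiv.ext H
lemma ap_inv (g : G) (x : Ω) : ap g (ap g⁻¹ x) = x := by rw [← ap_mul, mul_inv_cancel, ap_one]
lemma inv_ap (g : G) (x : Ω) : ap g⁻¹ (ap g x) = x := by rw [← ap_mul, inv_mul_cancel, ap_one]
lemma ap_inj (g : G) : Function.Injective (ap g) := (show Equiv.Perm Ω from g).injective

instance : TopologicalSpace G := TopologicalSpace.induced ap inferInstance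

lemma emb : IsEmbedding ap := ⟨⟨rfl⟩, fun _ _ h => ap_ext (congrFun h)⟩

lemma tendsto_iff {α : Type} {l : Filter α} {f : α → G} {g : G} :
    Tendsto f l (𝓝 g) ↔ ∀ x, ∀ᶠ a in l, ap (f a) x = ap g x := by
  rw [emb.tendsto_nhds_iff, tendsto_pi_nhds]
  simp only [nhds_discrete, tendsto_pure, Function.comp]

lemma ev (g : G) (x : Ω) : ∀ᶠ h in 𝓝 g, ap h x = ap g x := tendsto_iff.1 tendsto_id x

instance : IsTopologicalGroup G where
  continuous_mul := continuous_iff_continuousAt.2 fun p => tendsto_iff.2 fun x => by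
    filter_upwards [continuous_fst.continuousAt.eventually (ev p.1 (ap p.2 x)),
      continuous_snd.continuousAt.eventually (ev p.2 x)] with q h1 h2
    rw [ap_mul, ap_mul, h2, h1]
  continuous_inv := continuous_iff_continuousAt.2 fun g => tendsto_iff.2 fun x => by
    filter_upwards [ev g (ap g⁻¹ x)] with h h1
    rw [ap_inv] at h1
    apply ap_inj h
    rw [ap_inv, h1]

instance : TopologicalSpace.MetrizableSpace G := emb.metrizableSpace
instance : SecondCountableTopology G := emb.secondCountableTopology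

def θf (n : ℕ) : Ω → Ω
  | Sum.inl x => if n ≤ x then Sum.inr (n, x, 0) else Sum.inl x
  | Sum.inr (m, x, k) => if m = n ∧ n ≤ x then (if k = -1 then Sum.inl x else Sum.inr (m, x, k + 1))
      else Sum.inr (m, x, k)

def θi (n : ℕ) : Ω → Ω
  | Sum.inl x => if n ≤ x then Sum.inr (n, x, -1) else Sum.inl x
  | Sum.inr (m, x, k) => if m = n ∧ n ≤ x then (if k = 0 then Sum.inl x else Sum.inr (m, x, k - 1))
      else Sum.inr (m, x, k)

def θ (n : ℕ) : G := (⟨θf n, θi n, by
    rintro (x | ⟨m, x, k⟩)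
    · by_cases h : n ≤ x <;> simp [θf, θi, h]
    · by_cases h : m = n ∧ n ≤ x
      · by_cases h' : k = -1
        · simp [θf, θi, h, h']
        · have : k + 1 ≠ 0 := by omega
          simp [θf, θi, h, h', this]
      · simp only [θf, θi, if_neg h], by
    rintro (x | ⟨m, x, k⟩)
    · by_cases h : n ≤ x <;> simp [θf, θi, h]
    · by_cases h : m = n ∧ n ≤ x
      · by_cases h' : k = 0
        · simp [θf, θi, h, h']
        · have : k - 1 ≠ -1 := by omega
          simp [θf, θi, h, h', this]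
      · simp only [θf, θi, if_neg h]⟩ : Equiv.Perm Ω)

lemma ap_θ (n : ℕ) (x : Ω) : ap (θ n) x = θf n x := rfl

lemma θ_null : Tendsto θ atTop (𝓝 1) := by
  refine tendsto_iff.2 ?_
  rintro (x | ⟨m, x, k⟩)
  · filter_upwards [eventually_gt_atTop x] with n hn
    simp [ap_θ, ap_one, θf, not_le.2 hn]
  · filter_upwards [eventually_gt_atTop m] with n hn
    simp [ap_θ, ap_one, θf, hn.ne]

lemma θ_ne (n : ℕ) : θ n ≠ 1 := fun h => by
  have := congrArg (fun g => ap g (Sum.inl n)) h
  simp [ap_θ, ap_one, θf] at this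

lemma not_discrete : ¬ DiscreteTopology G := fun _ => by
  have := θ_null
  rw [nhds_discrete, tendsto_pure] at this
  obtain ⟨n, hn⟩ := this.exists
  exact θ_ne n hn

def Pf (p : ℕ → Equiv.Perm ℕ) : Ω → Ω
  | Sum.inl x => Sum.inl x
  | Sum.inr (m, x, k) => if 0 ≤ k then Sum.inr (m, p m x, k) else Sum.inr (m, x, k)

def P (p : ℕ → Equiv.Perm ℕ) : G := (⟨Pf p, Pf fun m => (p m).symm, by
    rintro (x | ⟨m, x, k⟩)
    · rfl
    · by_cases h : 0 ≤ k <;> simp [Pf, h], by
    rintro (x | ⟨m, x, k⟩)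
    · rfl
    · by_cases h : 0 ≤ k <;> simp [Pf, h]⟩ : Equiv.Perm Ω)

lemma ap_P (p : ℕ → Equiv.Perm ℕ) (x : Ω) : ap (P p) x = Pf p x := rfl

lemma exists_perm (g : G) (hg : ∀ y, ap g (Sum.inr y) = Sum.inr y) :
    ∃ p : Equiv.Perm ℕ, ∀ x, ap g (Sum.inl x) = Sum.inl (p x) := by
  have key : ∀ g : G, (∀ y, ap g (Sum.inr y) = Sum.inr y) → ∀ x, ∃ x', ap g (Sum.inl x) = Sum.inl x' := by
    intro g hg x
    rcases h : ap g (Sum.inl x) with x' | y
    · exact ⟨x', rfl⟩
    · exact absurd (ap_inj g (h.trans (hg y).symm)) Sum.inl_ne_inr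
  have hg' : ∀ y, ap g⁻¹ (Sum.inr y) = Sum.inr y := fun y => by
    conv_lhs => rw [← hg y]
    exact inv_ap _ _
  choose f hf using key g hg
  choose f' hf' using key g⁻¹ hg'
  refine ⟨⟨f, f', fun x => ?_, fun x => ?_⟩, hf⟩
  · apply Sum.inl_injective (β := ℕ × ℕ × ℤ)
    exact (hf' (f x)).symm.trans (by rw [← hf, inv_ap])
  · apply Sum.inl_injective (β := ℕ × ℕ × ℤ)
    exact (hf (f' x)).symm.trans (by rw [← hf', ap_inv])

section
variable (F : Filter G) (hθ : Tendsto θ atTop F)
  (hmul : Tendsto (fun p : G × G => p.1 * p.2) (F ×ˢ F) F)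
  (hinv : Tendsto (fun g : G => g⁻¹) F F)
  (hconj : ∀ h : G, Tendsto (fun g : G => h * g * h⁻¹) F F)
include hθ hmul hinv hconj

lemma lemA {W : Set G} (hW : W ∈ F) : ∃ n, ∀ g : G, (∀ y, ap g (Sum.inr y) = Sum.inr y) →
    (∀ x < n, ap g (Sum.inl x) = Sum.inl x) → g ∈ W := by
  by_contra hcon
  push Not at hcon
  choose g hg1 hg2 hg3 using hcon
  choose p hp using fun n => exists_perm (g n) (hg1 n)
  have hp1 : ∀ n x, x < n → p n x = x := fun n x h =>
    Sum.inl_injective ((hp n x).symm.trans (hg2 n x h))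
  have hp2 : ∀ n x, n ≤ p n x ↔ n ≤ x := fun n x => by
    constructor
    · intro h
      by_contra h'
      rw [hp1 n x (not_le.1 h')] at h
      exact h' h
    · intro h
      by_contra h'
      have := (p n).injective (hp1 n _ (not_le.1 h'))
      rw [this] at h'
      exact h' h
  have key : ∀ n, g n = (θ n)⁻¹ * (P p * θ n * (P p)⁻¹) := fun n => by
    rw [eq_inv_mul_iff_mul_eq, eq_mul_inv_iff_mul_eq]
    refine ap_ext ?_
    rintro (x | ⟨m, x, k⟩)
    · simp only [ap_mul, ap_P, ap_θ, Pf, hp, θf, hp2]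
      by_cases h : n ≤ x
      · simp [h]
      · simp [h, hp1 n x (not_le.1 h)]
    · simp only [ap_mul, ap_P, ap_θ, Pf]
      by_cases hk : 0 ≤ k
      · have h1 : k ≠ -1 := by omega
        have h2 : 0 ≤ k + 1 := by omega
        by_cases h : m = n ∧ n ≤ x
        · obtain ⟨rfl, h⟩ := h
          simp [hk, hg1, θf, hp2, h, h1, h2]
        · have h' : ¬ (m = n ∧ n ≤ p m x) := by
            rintro ⟨rfl, h'⟩
            exact h ⟨rfl, (hp2 _ _).1 h'⟩
          simp only [hk, hg1, θf, if_neg h, if_neg h', if_true]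
      · by_cases h : m = n ∧ n ≤ x
        · by_cases h1 : k = -1
          · simp [hg1, θf, h, h1]
          · have h2 : ¬ 0 ≤ k + 1 := by omega
            simp [hk, hg1, θf, h, h1, h2]
        · simp only [hk, hg1, θf, if_neg h, if_false]
  have : Tendsto g atTop F := by
    have := hmul.comp ((hinv.comp hθ).prodMk ((hconj (P p)).comp hθ))
    exact this.congr fun n => (key n).symm
  obtain ⟨n, hn⟩ := (this.eventually hW).exists
  exact hg3 n hn

lemma lemB {W : Set G} (hW : W ∈ F) (D : Set Ω) (h1 : D.Infinite) (h2 : Dᶜ.Infinite) :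
    ∃ T : Set Ω, T.Finite ∧ ∀ g : G, (∀ y ∈ D, ap g y = y) → (∀ y ∈ T, ap g y = y) → g ∈ W := by
  classical
  haveI := h1.to_subtype
  haveI := h2.to_subtype
  obtain ⟨e1⟩ : Nonempty (ℕ ≃ (Dᶜ : Set Ω)) := nonempty_equiv_of_countable
  obtain ⟨e2⟩ : Nonempty ((ℕ × ℕ × ℤ) ≃ D) := nonempty_equiv_of_countable
  let h : G := ((e1.sumCongr e2).trans ((Equiv.sumComm _ _).trans (Equiv.Set.sumCompl D)) :
    Equiv.Perm Ω)
  have hD : ∀ y, ap h (Sum.inr y) ∈ D := fun y => (e2 y).2
  obtain ⟨n, hn⟩ := lemA F hθ hmul hinv hconj (hconj h hW)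
  refine ⟨(fun x => ap h (Sum.inl x)) '' Iio n, (finite_Iio n).image _, fun g hg hg' => ?_⟩
  have := hn (h⁻¹ * g * h) (fun y => by rw [ap_mul, ap_mul, hg _ (hD y), inv_ap])
    (fun x hx => by rw [ap_mul, ap_mul, hg' _ ⟨x, hx, rfl⟩, inv_ap])
  simpa [mul_assoc] using this

theorem main : 𝓝 (1 : G) ≤ F := by
  classical
  intro W hW
  by_contra hcon
  obtain ⟨e, he⟩ := exists_surjective_nat Ω
  have h0 : ∀ n, ∃ g : G, (∀ i < n, ap g (e i) = e i) ∧ g ∉ W := fun n => by
    by_contra h
    push Not at h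
    refine hcon (mem_of_superset ((biInter_mem (finite_Iio n)).2 fun i _ => ev 1 (e i)) ?_)
    intro g hg
    exact h g fun i hi => mem_iInter₂.1 hg i hi
  choose g hg hgW using h0
  have hfin : ∀ x, {y | ∃ n, ap (g n) x = y ∨ ap (g n) y = x}.Finite := by
    intro x
    obtain ⟨i, rfl⟩ := he x
    refine (((finite_Iic i).image fun n => ap (g n) (e i)).union
      (((finite_Iic i).image fun n => ap (g n)⁻¹ (e i)).insert (e i))).subset ?_
    rintro y ⟨n, h⟩
    by_cases hn : n ≤ i
    · rcases h with h | h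
      · exact Or.inl ⟨n, hn, h⟩
      · exact Or.inr (Or.inr ⟨n, hn, by rw [← h]; exact inv_ap _ _⟩)
    · have := hg n i (not_le.1 hn)
      rcases h with h | h
      · exact Or.inr (Or.inl (h.symm.trans this))
      · exact Or.inr (Or.inl (ap_inj _ (h.trans this.symm)))
  obtain ⟨d, -, hd⟩ := exists_seq_of_forall_finset_exists (fun _ : Ω => True)
    (fun x y => x ≠ y ∧ ∀ n, ap (g n) x ≠ y ∧ ap (g n) y ≠ x) (by
      intro s _
      obtain ⟨y, hy⟩ := ((s.finite_toSet.biUnion fun x _ => hfin x).union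
        s.finite_toSet).exists_notMem
      refine ⟨y, trivial, fun x hx => ⟨?_, fun n => ⟨fun h => ?_, fun h => ?_⟩⟩⟩
      · rintro rfl
        exact hy (Or.inr hx)
      · exact hy (Or.inl (mem_biUnion hx ⟨n, Or.inl h⟩))
      · exact hy (Or.inl (mem_biUnion hx ⟨n, Or.inr h⟩)))
  have hd1 : ∀ i j n, ap (g n) (d i) = d j → i = j := fun i j n h => by
    rcases lt_trichotomy i j with h1 | h1 | h1
    · exact absurd h ((hd i j h1).2 n).1
    · exact h1
    · exact absurd h ((hd j i h1).2 n).2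
  have hdinj : Function.Injective d := fun i j h => by
    rcases lt_trichotomy i j with h1 | h1 | h1
    · exact absurd h (hd i j h1).1
    · exact h1
    · exact absurd h.symm (hd j i h1).1
  let D : Set Ω := range fun i => d (2 * i)
  let D' : Set Ω := range fun i => d (2 * i + 1)
  have hD : D.Infinite := infinite_range_of_injective fun i j h => by
    have := hdinj h; omega
  have hD' : D'.Infinite := infinite_range_of_injective fun i j h => by
    have := hdinj h; omega
  have hdisj : D' ⊆ Dᶜ := by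
    rintro _ ⟨i, rfl⟩ ⟨j, h⟩
    have := hdinj h; omega
  obtain ⟨W1, hW1, W2, hW2, hW12⟩ := mem_prod_iff.1 (hmul hW)
  obtain ⟨T, hT, hTW⟩ := lemB F hθ hmul hinv hconj hW1 D' hD'
    (hD.mono (subset_compl_comm.1 hdisj))
  obtain ⟨T', hT', hTW'⟩ := lemB F hθ hmul hinv hconj hW2 D hD (hD'.mono hdisj)
  obtain ⟨n, hn⟩ : ∃ n, ∀ y ∈ T ∪ T', ap (g n) y = y := by
    choose idx hidx using he
    obtain ⟨N, hN⟩ := ((hT.union hT').image idx).bddAbove
    refine ⟨N + 1, fun y hy => ?_⟩
    have := hg (N + 1) (idx y) (Nat.lt_succ_of_le (hN ⟨y, hy, rfl⟩))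
    rwa [hidx] at this
  have hDD : ∀ x ∈ D, ap (g n) x ∈ D → ap (g n) x = x := by
    rintro _ ⟨i, rfl⟩ ⟨j, h⟩
    have := hd1 _ _ _ h.symm
    rw [← h]; simp only [this]
  let af : Ω → Ω := fun x => if x ∈ D then ap (g n) x else
    if ap (g n)⁻¹ x ∈ D then ap (g n)⁻¹ x else x
  have haf : Function.Involutive af := by
    intro x
    by_cases h : x ∈ D
    · by_cases h' : ap (g n) x ∈ D
      · simp only [af, if_pos h, hDD x h h']
      · simp only [af, if_pos h, if_neg h', inv_ap]
    · by_cases h' : ap (g n)⁻¹ x ∈ D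
      · simp only [af, if_neg h, if_pos h', ap_inv]
      · simp only [af, if_neg h, if_neg h']
  let a : G := haf.toPerm
  have ha : ∀ x, ap a x = af x := fun _ => rfl
  have hfix : ∀ x, ap (g n) x = x → af x = x := fun x hx => by
    have : ap (g n)⁻¹ x = x := by
      conv_lhs => rw [← hx]
      exact inv_ap _ _
    simp only [af, hx, this, ite_self]
  have h1 : a ∈ W1 := by
    refine hTW a ?_ fun y hy => hfix y (hn y (Or.inl hy))
    intro y hy
    have h3 : ap (g n)⁻¹ y ∉ D := by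
      obtain ⟨i, rfl⟩ := hy
      rintro ⟨j, h⟩
      have := hd1 (2 * j) (2 * i + 1) n (by
        have h' : d (2 * j) = ap (g n)⁻¹ (d (2 * i + 1)) := h
        rw [h', ap_inv])
      omega
    simp only [ha, af, if_neg (hdisj hy), if_neg h3]
  have h2 : a * g n ∈ W2 := by
    refine hTW' _ (fun y hy => ?_) fun y hy => ?_
    · rw [ap_mul, ha]
      have : ap (g n) y = af y := by simp only [af, if_pos hy]
      rw [this, haf]
    · rw [ap_mul, hn y (Or.inr hy), ha, hfix y (hn y (Or.inr hy))]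
  have h3 : a * (a * g n) = g n := ap_ext fun x => haf _
  have := hW12 (mk_mem_prod h1 h2)
  simp only [mem_preimage, h3] at this
  exact hgW n this
end

theorem least (s : TopologicalSpace G) (hs : @IsTopologicalGroup G s _)
    (h : Tendsto θ atTop (@nhds G s 1)) : instTopologicalSpaceG ≤ s := by
  have key := main (@nhds G s 1) h (by
      have := (@continuous_mul G s _ hs.toContinuousMul).tendsto (1, 1)
      rwa [@nhds_prod_eq G G s s, mul_one] at this)
    (by
      have := (@continuous_inv G s _ hs.toContinuousInv).tendsto 1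
      rwa [inv_one] at this)
    (fun g => by
      have := (IsTopologicalGroup.continuous_conj g).tendsto 1
      simpa using this)
  have := @continuous_of_continuousAt_one G instTopologicalSpaceG _ _ G (G →* G) _ s
    hs.toContinuousMul _ _ (MonoidHom.id G) key
  exact continuous_id_iff_le.1 this

end Pool.Agent.H.MP_412c32_gt
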